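import Mathlib
import Pool.Agent.Helper21.SR.St

/-! Project SR (MP_cc0731_co), module KS: the level bound. -/

set_option autoImplicit false

namespace Pool.Agent.Helper69.SR

open Finset
open scoped Pointwise
open Pool.Agent.Helper21.SR

private theorem log_mono_aux {a b : ℕ} (h : a ≤ b) : Nat.log 2 a + 2 ≤ Nat.log 2 b + 2 :=
  Nat.add_le_add_right (Nat.log_mono_right h) 2

private theorem case1 (hEn : StEn) (A : Finset ℝ) (τ M l : ℕ) (hA : ∀ a ∈ A, 0 < a)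
    (hn : A.Nonempty) (hτ : τ ≤ #A) (hl : l ≤ M)
    (h : 16 * #(A + A) ^ 2 ≤ M * l * τ ^ 2) :
    τ ^ 2 ≤ 2 ^ 24 * M ^ 6 * (Nat.log 2 #(A + A) + 2) * #(A * A) := by
  have hn0 : 0 < #A := Finset.card_pos.mpr hn
  have hAN : #A ≤ #(A + A) := Finset.card_le_card_add_left hn
  have e1 := hEn A (A + A) A (A ×ˢ A) #(A + A) hAN le_rfl hA (by
    intro p hp
    obtain ⟨h1, h2⟩ := Finset.mem_product.mp hp
    exact ⟨h1, h2, Finset.add_mem_add h1 h2⟩)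
  rw [Finset.card_product] at e1
  obtain ⟨n, hn'⟩ : ∃ n, n = #A := ⟨_, rfl⟩
  obtain ⟨N, hN'⟩ : ∃ N, N = #(A + A) := ⟨_, rfl⟩
  obtain ⟨R, hR⟩ : ∃ R, R = (Nat.log 2 #(A + A) + 2) * #(A * A) := ⟨_, rfl⟩
  have e2 : (n * n) ^ 4 ≤ 65536 * N ^ 6 * R := by
    rw [hn', hN', hR]
    calc (#A * #A) ^ 4 ≤ 65536 * #(A + A) ^ 6 * (Nat.log 2 #(A + A) + 2) * #(A * A) := e1
      _ = _ := by ring
  have e3 : 4 * N ≤ M * n := by
    have h2 : (4 * N) ^ 2 ≤ (M * n) ^ 2 := by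
      calc (4 * N) ^ 2 = 16 * #(A + A) ^ 2 := by rw [hN']; ring
        _ ≤ M * l * τ ^ 2 := h
        _ ≤ M * M * n ^ 2 := by
            rw [hn']
            exact Nat.mul_le_mul (Nat.mul_le_mul_left _ hl) (Nat.pow_le_pow_left hτ 2)
        _ = (M * n) ^ 2 := by ring
    exact (Nat.pow_le_pow_iff_left (by norm_num)).mp h2
  have e4 : (4 * N) ^ 6 ≤ (M * n) ^ 6 := Nat.pow_le_pow_left e3 6
  have e5 : n ^ 6 * n ^ 2 ≤ n ^ 6 * (16 * M ^ 6 * R) := by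
    have e6 : 4096 * (n ^ 6 * n ^ 2) ≤ 4096 * (n ^ 6 * (16 * M ^ 6 * R)) := by
      calc 4096 * (n ^ 6 * n ^ 2) = 4096 * (n * n) ^ 4 := by ring
        _ ≤ 4096 * (65536 * N ^ 6 * R) := Nat.mul_le_mul_left _ e2
        _ = 65536 * ((4 * N) ^ 6) * R := by ring
        _ ≤ 65536 * ((M * n) ^ 6) * R :=
            Nat.mul_le_mul_right _ (Nat.mul_le_mul_left _ e4)
        _ = 4096 * (n ^ 6 * (16 * M ^ 6 * R)) := by ring
    exact Nat.le_of_mul_le_mul_left e6 (by norm_num)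
  have e7 : n ^ 2 ≤ 16 * M ^ 6 * R :=
    Nat.le_of_mul_le_mul_left e5 (by rw [hn']; positivity)
  calc τ ^ 2 ≤ n ^ 2 := by rw [hn']; exact Nat.pow_le_pow_left hτ 2
    _ ≤ 16 * M ^ 6 * R := e7
    _ ≤ 2 ^ 24 * M ^ 6 * R := by
        refine Nat.mul_le_mul_right _ (Nat.mul_le_mul_right _ (by norm_num))
    _ = _ := by rw [hR]; ring

theorem hKS (hEn : StEn) (hBlk : StBlk) (hPair : StPair) (hElim : StElim) : StKS := by
  intro A Λ τ M hA hΛ hn hτ1 hM h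
  have hn0 : 0 < #A := Finset.card_pos.mpr hn
  have hAN : #A ≤ #(A + A) := Finset.card_le_card_add_left hn
  have hΛ0 : 0 < #Λ := by
    rcases Nat.eq_zero_or_pos #Λ with h0 | h0
    · exfalso
      rw [h0, mul_zero, zero_mul] at h
      have h1 : 0 < #(A + A) ^ 2 := Nat.pow_pos (lt_of_lt_of_le hn0 hAN)
      omega
    · exact h0
  have hτn : τ ≤ #A := by
    obtain ⟨t, ht⟩ := Finset.card_pos.mp hΛ0
    exact (hΛ t ht).2.trans (Finset.card_le_card (Finset.filter_subset _ _))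
  rcases Nat.lt_or_ge #Λ M with hlt | hge
  · exact case1 hEn A τ M #Λ hA hn hτn hlt.le h
  -- the main case
  have hch : ∀ t : ℝ, ∃ P : Finset ℝ, t ∈ Λ → P ⊆ {x ∈ A | t * x ∈ A} ∧ #P = τ := by
    intro t
    by_cases ht : t ∈ Λ
    · obtain ⟨P, hP1, hP2⟩ := Finset.exists_subset_card_eq (hΛ t ht).2
      exact ⟨P, fun _ => ⟨hP1, hP2⟩⟩
    · exact ⟨∅, fun h => absurd h ht⟩
  choose Pt hPt using hch
  obtain ⟨B, hB1, hB2, hB3⟩ := hBlk A Λ Pt M hA (fun t ht => (hΛ t ht).1)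
    (fun t ht x hx => by
      have := (hPt t ht).1 hx
      rw [Finset.mem_filter] at this
      exact this) (by omega) hge
  have hW : 8 * #(Wset Pt B) ≤ M ^ 2 * τ ^ 2 := by
    have k1 : #Λ * (8 * #(Wset Pt B)) ≤ #Λ * (M ^ 2 * τ ^ 2) := by
      calc #Λ * (8 * #(Wset Pt B)) = 8 * (#(Wset Pt B) * #Λ) := by ring
        _ ≤ 8 * (2 * M * #(A + A) ^ 2) := Nat.mul_le_mul_left _ hB3
        _ = M * (16 * #(A + A) ^ 2) := by ring
        _ ≤ M * (M * #Λ * τ ^ 2) := Nat.mul_le_mul_left _ h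
        _ = #Λ * (M ^ 2 * τ ^ 2) := by ring
    exact Nat.le_of_mul_le_mul_left k1 hΛ0
  obtain ⟨s, hs, t, ht, r, hr, hst, hrs, hrt, Γ0, hΓ1, hΓ2, hΓ3⟩ := hPair B Pt τ M hB2 hM hτ1
    (fun t ht => (hPt t (hB1 ht)).2) hW
  have e1 := hElim A B Pt τ M s t r Γ0 hA hB2
    (fun u hu => ⟨(hPt u (hB1 hu)).1.trans (Finset.filter_subset _ _), (hPt u (hB1 hu)).2⟩)
    hs ht hr hst hrs hrt hΓ1 hΓ3
  obtain ⟨R, hR⟩ : ∃ R, R = (Nat.log 2 τ + 2) * #(A * A) := ⟨_, rfl⟩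
  have e2 : #Γ0 ^ 4 ≤ 1048576 * τ ^ 6 * M ^ 2 * R := by
    rw [hR]
    calc #Γ0 ^ 4 ≤ 1048576 * τ ^ 6 * (Nat.log 2 τ + 2) * M ^ 2 * #(A * A) := e1
      _ = _ := by ring
  have e3 : τ ^ 6 * τ ^ 2 ≤ τ ^ 6 * (2 ^ 24 * M ^ 6 * R) := by
    calc τ ^ 6 * τ ^ 2 = (τ ^ 2) ^ 4 := by ring
      _ ≤ (2 * M * #Γ0) ^ 4 := Nat.pow_le_pow_left hΓ2 4
      _ = 16 * M ^ 4 * #Γ0 ^ 4 := by ring
      _ ≤ 16 * M ^ 4 * (1048576 * τ ^ 6 * M ^ 2 * R) := Nat.mul_le_mul_left _ e2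
      _ = τ ^ 6 * (2 ^ 24 * M ^ 6 * R) := by ring
  have e4 : τ ^ 2 ≤ 2 ^ 24 * M ^ 6 * R := Nat.le_of_mul_le_mul_left e3 (by positivity)
  refine e4.trans ?_
  rw [hR, ← mul_assoc]
  exact Nat.mul_le_mul_right _ (Nat.mul_le_mul_left _ (log_mono_aux (hτn.trans hAN)))

end Pool.Agent.Helper69.SR
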